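import Mathlib

/-!
# Strong Roman domination: no bound of the form `c n` with `c < 1`

For every `k` there is a connected (bipartite) graph of order `n = (k+2) 2^k` whose strong Roman
domination number is at least `n - (3/2) 2^k`. In particular the bound `6n/7` fails.
-/

set_option autoImplicit false

namespace Pool.Agent.Results.MP_fc66e6_co.DyadicIncidence

/-- The number of neighbours of `w` with value `0` under `f`. -/
def zeroNbrs {V : Type*} [Fintype V] (G : SimpleGraph V) [DecidableRel G.Adj] (f : V → ℕ)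
    (w : V) : ℕ :=
  (Finset.univ.filter (fun x => G.Adj w x ∧ f x = 0)).card

/-- `f` is a strong Roman dominating function of `G`: all values are at most `⌈Δ/2⌉ + 1` and every
vertex `v` of value `0` has a neighbour `w` of value at least `2` and at least
`1 + ⌈|N(w) ∩ B₀| / 2⌉` (here `⌈m/2⌉` is `(m+1)/2` with integer division). -/
def IsStRDF {V : Type*} [Fintype V] (G : SimpleGraph V) [DecidableRel G.Adj] (f : V → ℕ) : Prop :=
  (∀ v, f v ≤ (G.maxDegree + 1) / 2 + 1) ∧
    ∀ v, f v = 0 → ∃ w, G.Adj v w ∧ 2 ≤ f w ∧ 1 + (zeroNbrs G f w + 1) / 2 ≤ f w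

/-- The strong Roman domination number: the least weight of a strong Roman dominating function. -/
noncomputable def strongRomanNum {V : Type*} [Fintype V] (G : SimpleGraph V)
    [DecidableRel G.Adj] : ℕ :=
  sInf {m | ∃ f : V → ℕ, IsStRDF G f ∧ ∑ v, f v = m}

/-- General lower bound through unique coverage: the vertices of value `0` with exactly one
neighbour among the active vertices. -/
lemma two_weight {V : Type*} [Fintype V] [DecidableEq V] (G : SimpleGraph V)
    [DecidableRel G.Adj] (f : V → ℕ) (hf : IsStRDF G f) :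
    ∃ W : Finset V, 2 * Fintype.card V ≤ 2 * ∑ v, f v +
      (Finset.univ.filter (fun v => (W.filter (fun w => G.Adj v w)).card = 1)).card := by
  classical
  let W : Finset V := Finset.univ.filter
    (fun w => 2 ≤ f w ∧ 1 + (zeroNbrs G f w + 1) / 2 ≤ f w)
  let B : Finset V := Finset.univ.filter (fun v => f v = 0)
  refine ⟨W, ?_⟩
  have hWB : Disjoint W B := by
    rw [Finset.disjoint_left]
    intro v h1 h2
    have h1' := (Finset.mem_filter.1 h1).2.1
    have h2' := (Finset.mem_filter.1 h2).2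
    omega
  let R : Finset V := (Finset.univ \ W) \ B
  have hsplit : ∀ g : V → ℕ, ∑ v, g v = ∑ v ∈ W, g v + (∑ v ∈ B, g v + ∑ v ∈ R, g v) := by
    intro g
    have h1 : ∑ v ∈ Finset.univ \ W, g v + ∑ v ∈ W, g v = ∑ v, g v :=
      Finset.sum_sdiff (Finset.subset_univ W)
    have h2 : ∑ v ∈ R, g v + ∑ v ∈ B, g v = ∑ v ∈ Finset.univ \ W, g v := by
      apply Finset.sum_sdiff
      intro v hv
      rw [Finset.mem_sdiff]
      exact ⟨Finset.mem_univ _, fun h => Finset.disjoint_left.1 hWB h hv⟩
    omega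
  -- double counting
  have hdc : ∑ w ∈ W, zeroNbrs G f w = ∑ v ∈ B, (W.filter (fun w => G.Adj v w)).card := by
    have h1 : ∀ w, zeroNbrs G f w = (B.filter (fun v => G.Adj v w)).card := by
      intro w
      unfold zeroNbrs
      congr 1
      ext x
      simp only [B, Finset.mem_filter, Finset.mem_univ, true_and]
      constructor
      · rintro ⟨a, b⟩; exact ⟨b, a.symm⟩
      · rintro ⟨a, b⟩; exact ⟨b.symm, a⟩
    simp only [h1]
    exact (Finset.sum_card_bipartiteAbove_eq_sum_card_bipartiteBelow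
      (fun v w => G.Adj v w)).symm
  have hB : 2 * B.card ≤ ∑ v ∈ B, (W.filter (fun w => G.Adj v w)).card +
      (Finset.univ.filter (fun v => (W.filter (fun w => G.Adj v w)).card = 1)).card := by
    have h1 : ∀ v ∈ B, 2 ≤ (W.filter (fun w => G.Adj v w)).card +
        (if (W.filter (fun w => G.Adj v w)).card = 1 then 1 else 0) := by
      intro v hv
      have hv0 : f v = 0 := (Finset.mem_filter.1 hv).2
      obtain ⟨w, hw1, hw2, hw3⟩ := hf.2 v hv0
      have hpos : 0 < (W.filter (fun w => G.Adj v w)).card :=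
        Finset.card_pos.2 ⟨w, Finset.mem_filter.2
          ⟨Finset.mem_filter.2 ⟨Finset.mem_univ _, hw2, hw3⟩, hw1⟩⟩
      split_ifs <;> omega
    have h2 := Finset.card_nsmul_le_sum B _ 2 h1
    rw [smul_eq_mul, Finset.sum_add_distrib, ← Finset.card_filter] at h2
    have h3 : (B.filter (fun v => (W.filter (fun w => G.Adj v w)).card = 1)).card ≤
        (Finset.univ.filter (fun v => (W.filter (fun w => G.Adj v w)).card = 1)).card :=
      Finset.card_le_card (Finset.filter_subset_filter _ (Finset.subset_univ B))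
    omega
  have hW : 2 * W.card + ∑ w ∈ W, zeroNbrs G f w ≤ 2 * ∑ w ∈ W, f w := by
    have h1 : ∀ w ∈ W, 2 + zeroNbrs G f w ≤ 2 * f w := by
      intro w hw
      have := (Finset.mem_filter.1 hw).2.2
      omega
    have h2 := Finset.sum_le_sum h1
    rw [Finset.sum_add_distrib, Finset.sum_const, smul_eq_mul, ← Finset.mul_sum] at h2
    omega
  have hR : R.card ≤ ∑ v ∈ R, f v := by
    have h1 : ∀ v ∈ R, 1 ≤ f v := by
      intro v hv
      have hvB := (Finset.mem_sdiff.1 hv).2
      by_contra hlt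
      exact hvB (Finset.mem_filter.2 ⟨Finset.mem_univ _, by omega⟩)
    have := Finset.card_nsmul_le_sum R f 1 h1
    simpa using this
  have hcard : Fintype.card V = W.card + (B.card + R.card) := by
    have := hsplit (fun _ => 1)
    simpa using this
  have htot := hsplit f
  omega

/-- The dyadic interval of level `i` around `a` inside `range (2^k)`. -/
def I (k i a : ℕ) : Finset ℕ := (Finset.range (2 ^ k)).filter (fun j => j / 2 ^ i = a / 2 ^ i)

lemma I_card_le (k i a : ℕ) : (I k i a).card ≤ 2 ^ i := by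
  have hpos : 0 < 2 ^ i := by positivity
  have hsub : I k i a ⊆ Finset.Ico (a / 2 ^ i * 2 ^ i) (a / 2 ^ i * 2 ^ i + 2 ^ i) := by
    intro j hj
    have hj := (Finset.mem_filter.1 hj).2
    rw [Finset.mem_Ico, ← hj]
    exact ⟨Nat.div_mul_le_self j _, Nat.lt_div_mul_add hpos⟩
  have := Finset.card_le_card hsub
  rw [Nat.card_Ico] at this
  omega

lemma I_card_ge (k i a : ℕ) (hi : i ≤ k) (ha : a < 2 ^ k) : 2 ^ i ≤ (I k i a).card := by
  have hpos : 0 < 2 ^ i := by positivity
  have hsub : Finset.Ico (a / 2 ^ i * 2 ^ i) (a / 2 ^ i * 2 ^ i + 2 ^ i) ⊆ I k i a := by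
    intro j hj
    rw [Finset.mem_Ico] at hj
    have hji : j / 2 ^ i = a / 2 ^ i := by
      rw [Nat.div_eq_iff hpos]
      constructor
      · exact hj.1
      · have := hj.2
        omega
    rw [I, Finset.mem_filter, Finset.mem_range]
    refine ⟨?_, hji⟩
    have h1 : a / 2 ^ i < 2 ^ (k - i) := by
      rw [Nat.div_lt_iff_lt_mul hpos, ← pow_add]
      rwa [Nat.sub_add_cancel hi]
    have h2 : j / 2 ^ i < 2 ^ (k - i) := by rw [hji]; exact h1
    rw [Nat.div_lt_iff_lt_mul hpos, ← pow_add, Nat.sub_add_cancel hi] at h2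
    exact h2
  have := Finset.card_le_card hsub
  rw [Nat.card_Ico] at this
  omega

/-- Unique coverage bound: for a set `X` of points below `2^k`, at most `2^(k+1)` pairs
`(i, j)`, `i ≤ k`, `j < 2^k`, are such that the level `i` interval of `j` contains exactly one
point of `X`. -/
lemma unique_cover (k : ℕ) (X : Finset ℕ) (hX : X ⊆ Finset.range (2 ^ k)) :
    ((Finset.range (k + 1) ×ˢ Finset.range (2 ^ k)).filter
      (fun p => (X.filter (fun a => a / 2 ^ p.1 = p.2 / 2 ^ p.1)).card = 1)).card ≤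
      2 * 2 ^ k := by
  classical
  -- levels at which `a` is alone
  let L : ℕ → Finset ℕ := fun a =>
    (Finset.range (k + 1)).filter (fun i => ∀ b ∈ X, b / 2 ^ i = a / 2 ^ i → b = a)
  have hL : ∀ a, (L a).Nonempty := fun a =>
    ⟨0, Finset.mem_filter.2 ⟨by simp, fun b _ h => by simpa using h⟩⟩
  let m : ℕ → ℕ := fun a => (L a).max' (hL a)
  have hm : ∀ a, m a ∈ L a := fun a => Finset.max'_mem _ _
  have hmk : ∀ a, m a ≤ k := fun a => by
    have := (Finset.mem_filter.1 (hm a)).1
    rw [Finset.mem_range] at this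
    omega
  have hsub : ((Finset.range (k + 1) ×ˢ Finset.range (2 ^ k)).filter
      (fun p => (X.filter (fun a => a / 2 ^ p.1 = p.2 / 2 ^ p.1)).card = 1)) ⊆
      X.biUnion (fun a => (Finset.range (m a + 1)).biUnion
        (fun i => (I k i a).image (fun j => (i, j)))) := by
    rintro ⟨i, j⟩ hp
    rw [Finset.mem_filter, Finset.mem_product, Finset.mem_range, Finset.mem_range] at hp
    obtain ⟨⟨hi, hj⟩, hc⟩ := hp
    simp only at hi hj hc
    obtain ⟨a, ha⟩ := Finset.card_eq_one.1 hc
    have haX : a ∈ X.filter (fun a => a / 2 ^ i = j / 2 ^ i) := by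
      rw [ha]; exact Finset.mem_singleton_self a
    rw [Finset.mem_filter] at haX
    have hiL : i ∈ L a := by
      refine Finset.mem_filter.2 ⟨Finset.mem_range.2 hi, fun b hb hba => ?_⟩
      have : b ∈ X.filter (fun a => a / 2 ^ i = j / 2 ^ i) :=
        Finset.mem_filter.2 ⟨hb, hba.trans haX.2⟩
      rw [ha] at this
      exact Finset.mem_singleton.1 this
    have him : i ≤ m a := Finset.le_max' _ _ hiL
    rw [Finset.mem_biUnion]
    refine ⟨a, haX.1, ?_⟩
    rw [Finset.mem_biUnion]
    refine ⟨i, Finset.mem_range.2 (by omega), ?_⟩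
    rw [Finset.mem_image]
    exact ⟨j, Finset.mem_filter.2 ⟨Finset.mem_range.2 hj, haX.2.symm⟩, rfl⟩
  have h1 : ∀ a, ((Finset.range (m a + 1)).biUnion
        (fun i => (I k i a).image (fun j => (i, j)))).card ≤ 2 * 2 ^ (m a) := by
    intro a
    refine Finset.card_biUnion_le.trans ?_
    have h2 : ∑ i ∈ Finset.range (m a + 1), ((I k i a).image (fun j => (i, j))).card ≤
        ∑ i ∈ Finset.range (m a + 1), 2 ^ i :=
      Finset.sum_le_sum (fun i _ => Finset.card_image_le.trans (I_card_le k i a))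
    refine h2.trans ?_
    have h3 := Nat.geomSum_lt (m := 2) (n := m a + 1) (s := Finset.range (m a + 1)) le_rfl
      (fun i hi => Finset.mem_range.1 hi)
    rw [pow_succ] at h3
    omega
  have hdisj : ∀ a ∈ X, ∀ b ∈ X, a ≠ b → Disjoint (I k (m a) a) (I k (m b) b) := by
    have key : ∀ a ∈ X, ∀ b ∈ X, a ≠ b → m a ≤ m b →
        Disjoint (I k (m a) a) (I k (m b) b) := by
      intro a ha b hb hab hle
      rw [Finset.disjoint_left]
      intro j h1 h2
      have h1 := (Finset.mem_filter.1 h1).2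
      have h2 := (Finset.mem_filter.1 h2).2
      apply hab
      apply (Finset.mem_filter.1 (hm b)).2 a ha
      obtain ⟨c, hc⟩ := Nat.exists_eq_add_of_le hle
      rw [← h2, hc, pow_add, ← Nat.div_div_eq_div_mul, ← Nat.div_div_eq_div_mul, h1]
    intro a ha b hb hab
    rcases le_total (m a) (m b) with h | h
    · exact key a ha b hb hab h
    · exact (key b hb a ha hab.symm h).symm
  have h4 : ∑ a ∈ X, 2 ^ (m a) ≤ 2 ^ k := by
    have h5 : ∑ a ∈ X, 2 ^ (m a) ≤ ∑ a ∈ X, (I k (m a) a).card :=
      Finset.sum_le_sum (fun a ha => I_card_ge k (m a) a (hmk a) (Finset.mem_range.1 (hX ha)))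
    have h6 : (X.biUnion (fun a => I k (m a) a)).card = ∑ a ∈ X, (I k (m a) a).card :=
      Finset.card_biUnion (fun a ha b hb hab => hdisj a ha b hb hab)
    have h7 : (X.biUnion (fun a => I k (m a) a)).card ≤ (Finset.range (2 ^ k)).card := by
      apply Finset.card_le_card
      intro j hj
      obtain ⟨a, _, hj⟩ := Finset.mem_biUnion.1 hj
      exact (Finset.mem_filter.1 hj).1
    rw [Finset.card_range] at h7
    omega
  calc _ ≤ _ := Finset.card_le_card hsub
    _ ≤ ∑ a ∈ X, ((Finset.range (m a + 1)).biUnion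
        (fun i => (I k i a).image (fun j => (i, j)))).card := Finset.card_biUnion_le
    _ ≤ ∑ a ∈ X, 2 * 2 ^ (m a) := Finset.sum_le_sum (fun a _ => h1 a)
    _ = 2 * ∑ a ∈ X, 2 ^ (m a) := by rw [Finset.mul_sum]
    _ ≤ 2 * 2 ^ k := Nat.mul_le_mul_left _ h4

/-- The vertices: the points `a < 2^k` and the pairs `(i, j)` with `i ≤ k`, `j < 2^k`. -/
abbrev Vtx (k : ℕ) : Type := Fin (2 ^ k) ⊕ (Fin (k + 1) × Fin (2 ^ k))

/-- The incidence graph: `(i, j)` is adjacent to the points `a` of the dyadic interval of length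
`2^i` containing `j`. -/
def graph (k : ℕ) : SimpleGraph (Vtx k) where
  Adj
    | Sum.inl a, Sum.inr p => a.val / 2 ^ p.1.val = p.2.val / 2 ^ p.1.val
    | Sum.inr p, Sum.inl a => a.val / 2 ^ p.1.val = p.2.val / 2 ^ p.1.val
    | _, _ => False
  symm := ⟨by rintro (a | a) (b | b) h <;> exact h⟩
  loopless := ⟨by rintro (a | a) h <;> exact h⟩

instance (k : ℕ) : DecidableRel (graph k).Adj := by
  intro x y
  rcases x with a | p <;> rcases y with b | q <;> unfold graph <;> infer_instance

lemma adj_lr {k : ℕ} {a : Fin (2 ^ k)} {p : Fin (k + 1) × Fin (2 ^ k)} :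
    (graph k).Adj (Sum.inl a) (Sum.inr p) ↔
      a.val / 2 ^ p.1.val = p.2.val / 2 ^ p.1.val := Iff.rfl

lemma adj_rl {k : ℕ} {a : Fin (2 ^ k)} {p : Fin (k + 1) × Fin (2 ^ k)} :
    (graph k).Adj (Sum.inr p) (Sum.inl a) ↔
      a.val / 2 ^ p.1.val = p.2.val / 2 ^ p.1.val := Iff.rfl

lemma adj_rr {k : ℕ} {p q : Fin (k + 1) × Fin (2 ^ k)} :
    ¬ (graph k).Adj (Sum.inr p) (Sum.inr q) := fun h => h

lemma unique_le (k : ℕ) (W : Finset (Vtx k)) :
    (Finset.univ.filter (fun v => (W.filter (fun w => (graph k).Adj v w)).card = 1)).card ≤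
      3 * 2 ^ k := by
  classical
  let X : Finset ℕ := (Finset.univ.filter (fun a : Fin (2 ^ k) => Sum.inl a ∈ W)).image Fin.val
  have hX : X ⊆ Finset.range (2 ^ k) := by
    intro x hx
    obtain ⟨a, _, rfl⟩ := Finset.mem_image.1 hx
    exact Finset.mem_range.2 a.2
  have hu := unique_cover k X hX
  have hcnt : ∀ p : Fin (k + 1) × Fin (2 ^ k),
      (W.filter (fun w => (graph k).Adj (Sum.inr p) w)).card =
      (X.filter (fun a => a / 2 ^ p.1.val = p.2.val / 2 ^ p.1.val)).card := by
    intro p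
    symm
    apply Finset.card_bij' (i := fun a ha => (Sum.inl ⟨a, Finset.mem_range.1
        (hX (Finset.mem_filter.1 ha).1)⟩ : Vtx k))
      (j := fun w _ => Sum.elim (fun a => a.val) (fun _ => 0) w)
    case hi =>
      intro a ha
      obtain ⟨h1, h2⟩ := Finset.mem_filter.1 ha
      obtain ⟨b, hb, rfl⟩ := Finset.mem_image.1 h1
      rw [Finset.mem_filter]
      exact ⟨(Finset.mem_filter.1 hb).2, h2⟩
    case hj =>
      intro w hw
      obtain ⟨h1, h2⟩ := Finset.mem_filter.1 hw
      rcases w with a | q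
      · rw [Finset.mem_filter]
        exact ⟨Finset.mem_image.2 ⟨a, Finset.mem_filter.2 ⟨Finset.mem_univ _, h1⟩, rfl⟩, h2⟩
      · exact absurd h2 adj_rr
    case left_inv =>
      intro a ha
      rfl
    case right_inv =>
      intro w hw
      obtain ⟨h1, h2⟩ := Finset.mem_filter.1 hw
      rcases w with a | q
      · rfl
      · exact absurd h2 adj_rr
  have hsub : (Finset.univ.filter
      (fun v => (W.filter (fun w => (graph k).Adj v w)).card = 1)) ⊆
      (Finset.univ.image (Sum.inl : Fin (2 ^ k) → Vtx k)) ∪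
      ((Finset.univ.filter (fun p : Fin (k + 1) × Fin (2 ^ k) =>
        (X.filter (fun a => a / 2 ^ p.1.val = p.2.val / 2 ^ p.1.val)).card = 1)).image
          (Sum.inr : _ → Vtx k)) := by
    intro v hv
    have hv := (Finset.mem_filter.1 hv).2
    rcases v with a | p
    · exact Finset.mem_union_left _ (Finset.mem_image.2 ⟨a, Finset.mem_univ _, rfl⟩)
    · refine Finset.mem_union_right _ (Finset.mem_image.2 ⟨p, ?_, rfl⟩)
      rw [hcnt p] at hv
      exact Finset.mem_filter.2 ⟨Finset.mem_univ _, hv⟩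
  have h1 : (Finset.univ.filter (fun p : Fin (k + 1) × Fin (2 ^ k) =>
        (X.filter (fun a => a / 2 ^ p.1.val = p.2.val / 2 ^ p.1.val)).card = 1)).card ≤
      2 * 2 ^ k := by
    refine le_trans ?_ hu
    apply Finset.card_le_card_of_injOn (fun p => (p.1.val, p.2.val))
    · intro p hp
      have hp := (Finset.mem_filter.1 hp).2
      rw [Finset.mem_coe, Finset.mem_filter, Finset.mem_product, Finset.mem_range,
        Finset.mem_range]
      exact ⟨⟨p.1.2, p.2.2⟩, hp⟩
    · rintro ⟨a, b⟩ _ ⟨c, d⟩ _ h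
      simp only [Prod.mk.injEq] at h
      exact Prod.ext (Fin.ext h.1) (Fin.ext h.2)
  have h2 := (Finset.card_le_card hsub).trans (Finset.card_union_le _ _)
  have h3 : (Finset.univ.image (Sum.inl : Fin (2 ^ k) → Vtx k)).card ≤ 2 ^ k := by
    refine Finset.card_image_le.trans ?_
    simp
  have h4 := Finset.card_image_le (f := (Sum.inr : _ → Vtx k))
    (s := (Finset.univ.filter (fun p : Fin (k + 1) × Fin (2 ^ k) =>
        (X.filter (fun a => a / 2 ^ p.1.val = p.2.val / 2 ^ p.1.val)).card = 1)))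
  omega

lemma connected (k : ℕ) : (graph k).Connected := by
  have h0 : 0 < 2 ^ k := by positivity
  have top : ∀ a : Fin (2 ^ k), (graph k).Adj (Sum.inl a)
      (Sum.inr (⟨k, by omega⟩, ⟨0, h0⟩)) := by
    intro a
    rw [adj_lr]
    simp only [Nat.zero_div]
    exact Nat.div_eq_of_lt a.2
  have key : ∀ v : Vtx k, (graph k).Reachable v (Sum.inr (⟨k, by omega⟩, ⟨0, h0⟩)) := by
    intro v
    rcases v with a | p
    · exact (top a).reachable
    · have h1 : (graph k).Adj (Sum.inr p) (Sum.inl p.2) := by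
        rw [adj_rl]
      exact h1.reachable.trans (top p.2).reachable
  have : Nonempty (Vtx k) := ⟨Sum.inl ⟨0, h0⟩⟩
  exact SimpleGraph.Connected.mk (fun u v => (key u).trans (key v).symm)

lemma card_vtx (k : ℕ) : Fintype.card (Vtx k) = (k + 2) * 2 ^ k := by
  rw [Fintype.card_sum, Fintype.card_prod, Fintype.card_fin, Fintype.card_fin]
  ring

lemma exists_StRDF {V : Type*} [Fintype V] (G : SimpleGraph V) [DecidableRel G.Adj] :
    {m | ∃ f : V → ℕ, IsStRDF G f ∧ ∑ v, f v = m}.Nonempty :=
  ⟨_, fun _ => 1, ⟨fun v => Nat.le_add_left 1 _, fun v hv => absurd hv (by norm_num)⟩, rfl⟩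

lemma lower (k : ℕ) : 2 * ((k + 2) * 2 ^ k) ≤ 2 * strongRomanNum (graph k) + 3 * 2 ^ k := by
  classical
  obtain ⟨f, hf, hsum⟩ := Nat.sInf_mem (exists_StRDF (graph k))
  obtain ⟨W, hW⟩ := two_weight (graph k) f hf
  have h1 := unique_le k W
  rw [card_vtx] at hW
  unfold strongRomanNum
  rw [← hsum]
  omega

/-- For every `k` there is a connected graph `G` of order `n = (k+2) 2^k` whose strong Roman
domination number is at least `n - (3/2) 2^k`, that is at least `(2k+1)/(2k+4) n`. In particular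
there is a connected graph with `γ_StR(G) > 6n/7`, and no bound `γ_StR(G) ≤ c n` with `c < 1`
holds for all connected graphs. -/
theorem result :
    (∀ k : ℕ, ∃ (V : Type) (_ : Fintype V) (G : SimpleGraph V) (_ : DecidableRel G.Adj),
      G.Connected ∧ Fintype.card V = (k + 2) * 2 ^ k ∧
      2 * Fintype.card V ≤ 2 * strongRomanNum G + 3 * 2 ^ k) ∧
    (∃ (V : Type) (_ : Fintype V) (G : SimpleGraph V) (_ : DecidableRel G.Adj),
      G.Connected ∧ 3 ≤ Fintype.card V ∧ 6 * Fintype.card V < 7 * strongRomanNum G) ∧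
    (∀ c : ℝ, c < 1 → ∃ (V : Type) (_ : Fintype V) (G : SimpleGraph V) (_ : DecidableRel G.Adj),
      G.Connected ∧ 3 ≤ Fintype.card V ∧
      c * (Fintype.card V : ℝ) < (strongRomanNum G : ℝ)) := by
  refine ⟨?_, ?_, ?_⟩
  · intro k
    refine ⟨Vtx k, inferInstance, graph k, inferInstance, connected k, card_vtx k, ?_⟩
    rw [card_vtx]
    exact lower k
  · have h := lower 9
    refine ⟨Vtx 9, inferInstance, graph 9, inferInstance, connected 9, ?_, ?_⟩
    · rw [card_vtx]; norm_num
    · rw [card_vtx]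
      norm_num at h ⊢
      omega
  · intro c hc
    obtain ⟨k, hk⟩ := exists_nat_gt (3 / (2 * (1 - c)))
    have h := lower (k + 1)
    refine ⟨Vtx (k + 1), inferInstance, graph (k + 1), inferInstance, connected _, ?_, ?_⟩
    · rw [card_vtx]
      have : 2 ≤ 2 ^ (k + 1) := by
        rw [pow_succ]
        have : 0 < 2 ^ k := by positivity
        omega
      nlinarith
    · rw [card_vtx]
      have h' : (2 : ℝ) * (((k : ℝ) + 1 + 2) * 2 ^ (k + 1)) ≤
          2 * (strongRomanNum (graph (k + 1)) : ℝ) + 3 * 2 ^ (k + 1) := by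
        exact_mod_cast h
      have hc' : 0 < 2 * (1 - c) := by linarith
      rw [div_lt_iff₀ hc'] at hk
      have hp : (0 : ℝ) < 2 ^ (k + 1) := by positivity
      push_cast
      have h5 : 3 * (2 : ℝ) ^ (k + 1) < ((k : ℝ) * (2 * (1 - c))) * 2 ^ (k + 1) :=
        mul_lt_mul_of_pos_right hk hp
      have h6 : (0 : ℝ) < (1 - c) * 2 ^ (k + 1) := by
        apply mul_pos _ hp; linarith
      nlinarith

end Pool.Agent.Results.MP_fc66e6_co.DyadicIncidence
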